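import Pool.Agent.H28.Ear2

set_option autoImplicit false

namespace Pool.Agent.Results.MP_ea1cff_co.Disproof

/-- A diagonal `{i, j}` of the `n`-gon with vertices `1, …, n`, written as `(i, j)` with `i < j`. -/
def IsDiag (n : ℕ) (p : ℕ × ℕ) : Prop :=
  1 ≤ p.1 ∧ p.1 + 2 ≤ p.2 ∧ p.2 ≤ n ∧ ¬ (p.1 = 1 ∧ p.2 = n)

/-- The diagonals `(i, j)` and `(k, l)` cross, with `i < k < j < l`. -/
def Cross (p q : ℕ × ℕ) : Prop := p.1 < q.1 ∧ q.1 < p.2 ∧ p.2 < q.2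

/-- A triangulation: a set of `n - 3` pairwise noncrossing diagonals. -/
def IsTri (n : ℕ) (T : Finset (ℕ × ℕ)) : Prop :=
  (∀ p ∈ T, IsDiag n p) ∧ (∀ p ∈ T, ∀ q ∈ T, ¬ Cross p q) ∧ T.card = n - 3

/-- The vertex set of the Kneser hypergraph. -/
def Tri (n : ℕ) : Type := {T : Finset (ℕ × ℕ) // IsTri n T}

/-- An edge: `r` pairwise disjoint triangulations. -/
def IsEdge (r n : ℕ) (F : Finset (Tri n)) : Prop :=
  F.card = r ∧ ∀ A ∈ F, ∀ B ∈ F, A ≠ B → Disjoint A.1 B.1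

/-- A proper colouring with `t` colours: no edge is monochromatic. -/
def IsProper (r n t : ℕ) (c : Tri n → Fin t) : Prop :=
  ∀ F, IsEdge r n F → ¬ ∃ k, ∀ A ∈ F, c A = k

theorem result : ∀ n : ℕ, 10 ≤ n → Even n →
    ∃ t : ℕ, (t : ℤ) < ⌈((n : ℚ) - 3) / (3 - 1)⌉ ∧ ∃ c, IsProper 3 n t c := by
  classical
  have key : ∀ m : ℕ, 5 ≤ m → ∃ c, IsProper 3 (2 * m) (m - 2) c := by
    intro m hm
    obtain ⟨c, hc⟩ := Pool.Agent.H28.Ear.main m hm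
    refine ⟨fun A => c A.1, fun F hF ⟨k, hk⟩ => ?_⟩
    obtain ⟨A, B, C, d1, d2, d3, rfl⟩ := Finset.card_eq_three.1 hF.1
    exact hc A.1 B.1 C.1 A.2 B.2 C.2 (hF.2 A (by simp) B (by simp) d1)
      (hF.2 A (by simp) C (by simp) d2) (hF.2 B (by simp) C (by simp) d3)
      ⟨(hk A (by simp)).trans (hk B (by simp)).symm, (hk B (by simp)).trans (hk C (by simp)).symm⟩
  rintro n hn ⟨m, rfl⟩
  obtain ⟨k, rfl⟩ : ∃ k, m = k + 5 := ⟨m - 5, by omega⟩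
  refine ⟨k + 5 - 2, ?_, by rw [← two_mul]; exact key (k + 5) (by omega)⟩
  rw [show k + 5 - 2 = k + 3 by omega, Int.lt_ceil]
  push_cast
  linarith

end Pool.Agent.Results.MP_ea1cff_co.Disproof
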